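import Pool.Agent.Helper57.QZ.Stmts2
import Pool.Agent.Helper91.ZM.MEL

/-! Row `ZG`: linear growth of zeta in the strip `1/2 ≤ σ ≤ 6`. -/

set_option autoImplicit false

namespace Pool.Agent.Helper91.Q2

open MeasureTheory Set Filter Topology

open Pool.Agent.Helper91.ZM in
theorem mellin_E1_le {C : ℝ} (hC : 1 ≤ C) (hb : ∀ x : ℝ, ‖E1 ∅ x‖ ≤ C) {s : ℂ}
    (hs : 1 / 2 ≤ s.re) : ‖mellin (E1 ∅) (-s)‖ ≤ 2 * C := by
  rw [mellin_one (fun x hx => E1_zero ∅ hx)]
  have hI : IntegrableOn (fun t : ℝ => C * t ^ (-(s.re + 1))) (Ioi 1) :=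
    (integrableOn_Ioi_rpow_of_lt (by linarith) one_pos).const_mul C
  calc ‖∫ t in Ioi (1 : ℝ), E1 ∅ t * (t : ℂ) ^ (-(s + 1))‖
      ≤ ∫ t in Ioi (1 : ℝ), C * t ^ (-(s.re + 1)) := by
        refine norm_integral_le_of_norm_le hI ?_
        filter_upwards [ae_restrict_mem measurableSet_Ioi] with t ht
        have ht' : 1 < t := ht
        rw [norm_mul, Complex.norm_cpow_eq_rpow_re_of_pos (by linarith)]
        have e : (-(s + 1)).re = -(s.re + 1) := by simp
        rw [e]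
        exact mul_le_mul_of_nonneg_right (hb t) (Real.rpow_nonneg (by linarith) _)
    _ = C / s.re := by
        rw [integral_const_mul, integral_Ioi_rpow_of_lt (by linarith) one_pos, Real.one_rpow]
        have h0 : s.re ≠ 0 := by linarith
        have h1 : -(s.re + 1) + 1 = -s.re := by ring
        rw [h1]
        field_simp
    _ ≤ 2 * C := by
        rw [div_le_iff₀ (by linarith)]
        nlinarith

end Pool.Agent.Helper91.Q2

namespace Pool.Agent.Helper57.QZ

open MeasureTheory Set Filter Topology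

theorem st_ZG : ST_ZG := by
  obtain ⟨C, hC, hb⟩ := Pool.Agent.Helper91.ZM.E1_bound ∅ (by simp)
  refine ⟨14 * C + 8, fun σ hσ t ht => ?_⟩
  have hre : (pt σ t).re = σ := by simp [pt]
  have him : (pt σ t).im = t := by simp [pt]
  have hs1 : pt σ t ≠ 1 := by
    intro h
    have := congrArg Complex.im h
    rw [him] at this
    simp at this
    linarith
  have hr := Pool.Agent.Helper91.ZM.rep ∅ (by simp) (s := pt σ t) (by rw [hre]; linarith [hσ.1]) hs1
  have e1 : Pool.Agent.Helper91.ZM.EP ∅ (pt σ t) = 1 := by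
    simp [Pool.Agent.Helper91.ZM.EP]
  have e2 : Pool.Agent.Helper91.ZM.dl ∅ = 1 := by
    simp [Pool.Agent.Helper91.ZM.dl]
  rw [e1, e2, mul_one] at hr
  have hz : riemannZeta (pt σ t) = 1 + pt σ t * mellin (Pool.Agent.Helper91.ZM.E1 ∅) (-(pt σ t)) +
      pt σ t / (pt σ t - 1) := by
    have : ((1 : ℝ) : ℂ) * pt σ t / (pt σ t - 1) = pt σ t / (pt σ t - 1) := by simp
    rw [this] at hr
    linear_combination hr
  have hn : ‖pt σ t‖ ≤ 7 * t := by
    calc ‖pt σ t‖ ≤ |(pt σ t).re| + |(pt σ t).im| := Complex.norm_le_abs_re_add_abs_im _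
      _ = σ + t := by
        rw [hre, him, abs_of_nonneg (by linarith [hσ.1]), abs_of_nonneg (by linarith)]
      _ ≤ 7 * t := by linarith [hσ.2]
  have hd : t ≤ ‖pt σ t - 1‖ := by
    calc t = |(pt σ t - 1).im| := by
          rw [Complex.sub_im, him, Complex.one_im, sub_zero, abs_of_nonneg (by linarith)]
      _ ≤ ‖pt σ t - 1‖ := Complex.abs_im_le_norm _
  have hq : ‖pt σ t / (pt σ t - 1)‖ ≤ 7 := by
    rw [norm_div, div_le_iff₀ (by linarith)]
    linarith
  have hm := Pool.Agent.Helper91.Q2.mellin_E1_le hC hb (s := pt σ t) (by rw [hre]; exact hσ.1)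
  rw [hz]
  calc ‖1 + pt σ t * mellin (Pool.Agent.Helper91.ZM.E1 ∅) (-(pt σ t)) +
      pt σ t / (pt σ t - 1)‖
      ≤ ‖(1 : ℂ)‖ + ‖pt σ t * mellin (Pool.Agent.Helper91.ZM.E1 ∅) (-(pt σ t))‖ +
        ‖pt σ t / (pt σ t - 1)‖ := norm_add₃_le
    _ ≤ 1 + (7 * t) * (2 * C) + 7 := by
        rw [norm_one, norm_mul]
        have := mul_le_mul hn hm (norm_nonneg _) (by linarith : (0 : ℝ) ≤ 7 * t)
        linarith
    _ ≤ (14 * C + 8) * t := by nlinarith

end Pool.Agent.Helper57.QZ
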